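import Mathlib
import Pool.Agent.D0H73.MK.Stm

/-!
# Project MK (helper73), module GLUE (helper2)
-/

set_option autoImplicit false

open Set Topology Filter Cardinal Ordinal

namespace Pool.Agent.D0H2.MK

open Pool.Agent.D0H73.MK

universe u

variable {𝕜 : Type} [RCLike 𝕜] {X : Type u} [NormedAddCommGroup X] [NormedSpace 𝕜 X]

/-- A Markushevich basis of the range of a projection, inside the whole space. -/
theorem piece (hMB : S_MB.{u}) (D : X →L[𝕜] X) (hD : ∀ x, D (D x) = D x)
    (hs : TopologicalSpace.IsSeparable (range D)) :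
    ∃ (A : Set X) (g : X → X →L[𝕜] 𝕜), (∀ v ∈ A, D v = v) ∧ (∀ v ∈ A, ∀ y, g v (D y) = g v y) ∧
      (∀ v ∈ A, g v v = 1) ∧ (∀ v ∈ A, ∀ w ∈ A, v ≠ w → g v w = 0) ∧
      (∀ y, D y ∈ closure (Submodule.span 𝕜 A : Set X)) ∧
      (∀ y, (∀ v ∈ A, g v y = 0) → D y = 0) := by
  classical
  have hmem : ∀ y, D y ∈ rng D := fun y => ⟨y, rfl⟩
  have hcoe : ((rng D : Submodule 𝕜 X) : Set X) = range D := by
    ext y
    simp [rng]
  have : TopologicalSpace.SeparableSpace (rng D) := by
    have h1 : TopologicalSpace.IsSeparable ((rng D : Submodule 𝕜 X) : Set X) := by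
      rw [hcoe]; exact hs
    exact h1.separableSpace
  obtain ⟨I, x, f, h⟩ := hMB 𝕜 (rng D)
  set D' : X →L[𝕜] (rng D) := D.codRestrict (rng D) hmem with hD'
  have hD'c : ∀ y, ((D' y : rng D) : X) = D y := fun y => rfl
  have hfix : ∀ w : rng D, D (w : X) = w := by
    rintro ⟨w, y, rfl⟩
    exact hD y
  have hD'w : ∀ w : rng D, D' (w : X) = w := fun w => Subtype.ext (hfix w)
  have hinj : ∀ i j, (x i : X) = (x j : X) → i = j := by
    intro i j hij
    by_contra hne
    have h1 := h.self i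
    have h2 := h.ne i j hne
    rw [Subtype.ext hij, h2] at h1
    exact zero_ne_one h1
  let g : X → X →L[𝕜] 𝕜 := fun v =>
    if hv : ∃ i, (x i : X) = v then (f hv.choose).comp D' else 0
  have hg : ∀ i, g (x i : X) = (f i).comp D' := by
    intro i
    have hv : ∃ j, (x j : X) = (x i : X) := ⟨i, rfl⟩
    simp only [g, dif_pos hv]
    rw [hinj _ _ hv.choose_spec]
  refine ⟨range (fun i => (x i : X)), g, ?_, ?_, ?_, ?_, ?_, ?_⟩
  · rintro _ ⟨i, rfl⟩
    exact hfix _
  · rintro _ ⟨i, rfl⟩ y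
    simp only [hg, ContinuousLinearMap.comp_apply]
    congr 1
    exact Subtype.ext (hD y)
  · rintro _ ⟨i, rfl⟩
    simp only [hg, ContinuousLinearMap.comp_apply]
    rw [hD'w]
    exact h.self i
  · rintro _ ⟨i, rfl⟩ _ ⟨j, rfl⟩ hne
    simp only [hg, ContinuousLinearMap.comp_apply]
    rw [hD'w]
    exact h.ne i j fun hij => hne (by rw [hij])
  · intro y
    have h1 : D' y ∈ closure (Submodule.span 𝕜 (range x) : Set (rng D)) := by
      rw [h.dense]; exact mem_univ _
    have h2 : D y ∈ (fun w : rng D => (w : X)) '' closure (Submodule.span 𝕜 (range x) : Set (rng D)) :=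
      ⟨D' y, h1, rfl⟩
    have h3 := image_closure_subset_closure_image (f := fun w : rng D => (w : X))
      continuous_subtype_val h2
    have h4 : (fun w : rng D => (w : X)) '' (Submodule.span 𝕜 (range x) : Set (rng D)) =
        (Submodule.span 𝕜 (range (fun i => (x i : X))) : Set X) := by
      have h5 := Submodule.map_span (rng D).subtype (range x)
      have h6 : (rng D).subtype '' (range x) = range (fun i => (x i : X)) := by
        rw [← range_comp]; rfl
      rw [h6] at h5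
      rw [← h5]
      rfl
    rw [h4] at h3
    exact h3
  · intro y hy
    have h1 : D' y = 0 := by
      apply h.separating
      intro i
      have h2 := hy (x i : X) ⟨i, rfl⟩
      rw [hg i] at h2
      exact h2
    rw [← hD'c, h1]
    rfl

theorem t_GLUE : S_MB.{u} → S_GLUE.{u} := by
  intro hMB 𝕜 _ X _ _ κ Q hQ
  classical
  set D : Ordinal.{u} → X →L[𝕜] X := fun β => Q (β + 1) - Q β with hDdef
  have hle : ∀ β, β < κ.ord → β + 1 ≤ κ.ord := fun β hβ => Order.add_one_le_of_lt hβ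
  have hDx : ∀ β x, D β x = Q (β + 1) x - Q β x := fun β x => rfl
  -- `Q α` on the pieces
  have hlow : ∀ α β, α ≤ β → β < κ.ord → ∀ x, Q α (D β x) = 0 := by
    intro α β hαβ hβ x
    rw [hDx, map_sub, (hQ.comp α (β + 1) (hαβ.trans (Order.le_succ β)) (hle β hβ) x).2,
      (hQ.comp α β hαβ hβ.le x).2, _root_.sub_self]
  have hhigh : ∀ α β, β < α → α ≤ κ.ord → ∀ x, Q α (D β x) = D β x := by
    intro α β hβα hα x
    have h1 : β + 1 ≤ α := Order.add_one_le_of_lt hβα
    rw [hDx, map_sub, (hQ.comp (β + 1) α h1 hα x).1, (hQ.comp β α hβα.le hα x).1]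
  have hidem : ∀ β, β < κ.ord → ∀ x, D β (D β x) = D β x := by
    intro β hβ x
    rw [hDx β (D β x), hhigh (β + 1) β (Order.lt_succ β) (hle β hβ), hlow β β le_rfl hβ, _root_.sub_zero]
  have horth : ∀ β γ, β ≠ γ → β < κ.ord → γ < κ.ord → ∀ x, D β (D γ x) = 0 := by
    intro β γ hne hβ hγ x
    rw [hDx β (D γ x)]
    rcases lt_or_gt_of_ne hne with h | h
    · rw [hlow (β + 1) γ (Order.add_one_le_of_lt h) hγ, hlow β γ h.le hγ, _root_.sub_self]
    · rw [hhigh (β + 1) γ (h.trans (Order.lt_succ β)) (hle β hβ), hhigh β γ h hβ.le, _root_.sub_self]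
  have H : ∀ β, β < κ.ord → ∃ (A : Set X) (g : X → X →L[𝕜] 𝕜), (∀ v ∈ A, D β v = v) ∧
      (∀ v ∈ A, ∀ y, g v (D β y) = g v y) ∧
      (∀ v ∈ A, g v v = 1) ∧ (∀ v ∈ A, ∀ w ∈ A, v ≠ w → g v w = 0) ∧
      (∀ y, D β y ∈ closure (Submodule.span 𝕜 A : Set X)) ∧
      (∀ y, (∀ v ∈ A, g v y = 0) → D β y = 0) := fun β hβ =>
    piece hMB (D β) (hidem β hβ) (hQ.sep β hβ)
  choose! A g hfix hgD hself hne hdense hsep using H
  have huniq : ∀ β γ v, β < κ.ord → γ < κ.ord → v ∈ A β → v ∈ A γ → β = γ := by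
    intro β γ v hβ hγ hv hv'
    by_contra hbg
    have h1 := horth β γ hbg hβ hγ v
    rw [hfix γ hγ v hv', hfix β hβ v hv] at h1
    have h2 := hself β hβ v hv
    rw [h1, map_zero] at h2
    exact zero_ne_one h2
  let S : Set X := {v | ∃ β, β < κ.ord ∧ v ∈ A β}
  let b : S → Ordinal.{u} := fun v => v.2.choose
  have hb1 : ∀ v : S, b v < κ.ord := fun v => v.2.choose_spec.1
  have hb2 : ∀ v : S, (v : X) ∈ A (b v) := fun v => v.2.choose_spec.2
  have hspan : ∀ β, β < κ.ord → ∀ y, D β y ∈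
      (Submodule.span 𝕜 (range (fun v : S => (v : X)))).topologicalClosure := by
    intro β hβ y
    have h1 := hdense β hβ y
    have h2 : (Submodule.span 𝕜 (A β) : Set X) ⊆
        (Submodule.span 𝕜 (range (fun v : S => (v : X))) : Set X) := by
      refine Submodule.span_mono ?_
      intro v hv
      exact ⟨⟨v, β, hβ, hv⟩, rfl⟩
    exact closure_mono h2 h1
  refine ⟨S, fun v => v, fun v => g (b v) v, ⟨?_, ?_, ?_, ?_⟩, ?_⟩
  · intro v
    exact hself _ (hb1 v) _ (hb2 v)
  · intro v w hvw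
    have hvw' : (v : X) ≠ (w : X) := fun h => hvw (Subtype.ext h)
    by_cases hbb : b v = b w
    · exact hne _ (hb1 v) _ (hb2 v) _ (by rw [hbb]; exact hb2 w) hvw'
    · rw [← hgD _ (hb1 v) _ (hb2 v), ← hfix _ (hb1 w) _ (hb2 w), horth _ _ hbb (hb1 v) (hb1 w),
        map_zero]
  · rw [eq_univ_iff_forall]
    intro x
    have h1 := hQ.dense x
    have h2 : Submodule.span 𝕜 {y | ∃ β < κ.ord, y = Q (β + 1) x - Q β x} ≤
        (Submodule.span 𝕜 (range (fun v : S => (v : X)))).topologicalClosure := by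
      rw [Submodule.span_le]
      rintro y ⟨β, hβ, rfl⟩
      exact hspan β hβ x
    have h3 : closure (Submodule.span 𝕜 {y | ∃ β < κ.ord, y = Q (β + 1) x - Q β x} : Set X) ⊆
        ((Submodule.span 𝕜 (range (fun v : S => (v : X)))).topologicalClosure : Set X) :=
      closure_minimal h2 (Submodule.isClosed_topologicalClosure _)
    exact h3 h1
  · intro v hv
    have hz : ∀ β, β < κ.ord → D β v = 0 := by
      intro β hβ
      apply hsep β hβ
      intro w hw
      have h1 := hv ⟨w, β, hβ, hw⟩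
      have h2 : b ⟨w, β, hβ, hw⟩ = β := huniq _ _ w (hb1 _) hβ (hb2 ⟨w, β, hβ, hw⟩) hw
      simp only [h2] at h1
      exact h1
    have h1 := hQ.dense v
    have h2 : (Submodule.span 𝕜 {y | ∃ β < κ.ord, y = Q (β + 1) v - Q β v} : Set X) ⊆ {0} := by
      have h3 : Submodule.span 𝕜 {y | ∃ β < κ.ord, y = Q (β + 1) v - Q β v} ≤ ⊥ := by
        rw [Submodule.span_le]
        rintro y ⟨β, hβ, rfl⟩
        exact hz β hβ
      intro y hy
      exact h3 hy
    have h3 := closure_minimal h2 isClosed_singleton h1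
    simpa using h3
  · intro α hα v
    show Q α (v : X) ∈ insert (0 : X) (range fun v : S => (v : X))
    have hv := hfix _ (hb1 v) _ (hb2 v)
    rcases le_or_gt α (b v) with h | h
    · have h1 := hlow α _ h (hb1 v) (v : X)
      rw [hv] at h1
      rw [h1]
      exact mem_insert _ _
    · have h1 := hhigh α _ h hα (v : X)
      rw [hv] at h1
      rw [h1]
      exact mem_insert_of_mem _ ⟨v, rfl⟩

end Pool.Agent.D0H2.MK
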